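import Mathlib
import Pool.Agent.MP_adfebc_an.Defs
import Pool.Agent.MP_adfebc_an.Proof

open Pool.Agent.MP_adfebc_an

theorem Pool.Agent.Results.MP_adfebc_an.StretchRect.result {n m : ℕ}
    (f : EuclideanSpace ℝ (Fin n) → EuclideanSpace ℝ (Fin m))
    (hf : ∃ K : NNReal, LipschitzWith K f) (hnc : ¬ ∃ c, ∀ x, f x = c) :
    ∃ (K : NNReal) (ψ : EuclideanSpace ℝ (Fin (n + m)) →
        WithLp 2 (EuclideanSpace ℝ (Fin n) × EuclideanSpace ℝ (Fin n))),
      LipschitzWith K ψ ∧ stretchSet f ⊆ Set.range ψ :=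
  Pool.Agent.MP_adfebc_an.main f hf hnc
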